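import Mathlib
import Pool.Agent.H26.ZMad

/-! Every analytic `Z₀`-MAD family is countable. -/

namespace Pool.Agent.Results.MP_af84fe_lc.AnalyticCountable

open Set Filter Topology

/-- The density zero ideal `Z₀`: `|A ∩ {0,…,n-1}| / n → 0`. -/
def Z0 : Set (Set ℕ) :=
  {A | Tendsto (fun n : ℕ => ((A ∩ {k | k < n}).ncard : ℝ) / n) atTop (𝓝 0)}

/-- `𝒜` is `I`-MAD: it consists of `I`-positive sets, is `I`-almost disjoint, and every
`I`-positive set meets a member of `𝒜` in an `I`-positive set. -/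
def IsMAD (I : Set (Set ℕ)) (𝒜 : Set (Set ℕ)) : Prop :=
  (∀ A ∈ 𝒜, A ∉ I) ∧ (∀ A ∈ 𝒜, ∀ B ∈ 𝒜, A ≠ B → A ∩ B ∈ I) ∧
    ∀ X : Set ℕ, X ∉ I → ∃ A ∈ 𝒜, X ∩ A ∉ I

/-- `𝒜` is analytic as a subset of the Cantor space `ℕ → Bool` (characteristic functions). -/
def IsAnalytic (𝒜 : Set (Set ℕ)) : Prop :=
  MeasureTheory.AnalyticSet {x : ℕ → Bool | {n : ℕ | x n = true} ∈ 𝒜}

theorem result : ∀ 𝒜 : Set (Set ℕ), IsAnalytic 𝒜 → IsMAD Z0 𝒜 → 𝒜.Countable := by
  classical
  intro 𝒜 hA ⟨hpos, had, hmax⟩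
  have key : ∀ A : Set ℕ, A = {n | (fun n => decide (n ∈ A)) n = true} := by
    intro A; ext n; simp
  unfold IsAnalytic at hA
  rw [MeasureTheory.AnalyticSet] at hA
  rcases hA with h | ⟨g, hg, hr⟩
  · have : 𝒜 = ∅ := by
      ext A
      simp only [mem_empty_iff_false, iff_false]
      intro hA
      have : (fun n => decide (n ∈ A)) ∈ {x : ℕ → Bool | {n : ℕ | x n = true} ∈ 𝒜} := by
        show {n | (fun n => decide (n ∈ A)) n = true} ∈ 𝒜
        rw [← key]; exact hA
      rw [h] at this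
      exact this
    rw [this]; exact countable_empty
  · refine Pool.Agent.H26.ZMad.countable_of_range g hg ?_ had hpos hmax
    intro A
    constructor
    · intro hA
      have : (fun n => decide (n ∈ A)) ∈ range g := by
        rw [hr]
        show {n | (fun n => decide (n ∈ A)) n = true} ∈ 𝒜
        rw [← key]; exact hA
      obtain ⟨x, hx⟩ := this
      exact ⟨x, by rw [hx]; exact key A⟩
    · rintro ⟨x, rfl⟩
      have : g x ∈ range g := mem_range_self x
      rw [hr] at this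
      exact this

end Pool.Agent.Results.MP_af84fe_lc.AnalyticCountable
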